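import Mathlib

/-!
# Rational `r`-term sums of sets of irrational numbers

For all `1 < r < n`, a set of `n` irrational numbers has at most
`⌊n/r⌋ * choose (n - ⌊n/r⌋) (r - 1)` subsets of size `r` whose sum is rational, and this
is attained.
-/

namespace Pool.Agent.Results.MP_604c02_co.RationalSums

open Finset
open scoped Nat

/-! ### A LYM inequality for zero-sum sets, by double counting prefixes -/

section lym

variable {X Y : Type*} [Fintype X] [Fintype Y] [DecidableEq X] [DecidableEq Y]

open Numbering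

lemma eq_of_prefix {u : X → ℚ} {v : Y → ℚ} (hu : ∀ x, u x < 0) (hv : ∀ y, 0 < v y) {r : ℕ}
    {S S' : Finset X} {T T' : Finset Y}
    (h1 : #S + #T = r) (h1' : #S' + #T' = r)
    (h2 : ∑ x ∈ S, u x + ∑ y ∈ T, v y = 0) (h2' : ∑ x ∈ S', u x + ∑ y ∈ T', v y = 0)
    (f : Numbering X) (g : Numbering Y)
    (hS : IsPrefix f S) (hS' : IsPrefix f S') (hT : IsPrefix g T) (hT' : IsPrefix g T')
    (hle : #S ≤ #S') : S = S' ∧ T = T' := by
  have hSS : S ⊆ S' := hS.subset_of_card_le_card hS' hle
  have hTT : T' ⊆ T := hT'.subset_of_card_le_card hT (by omega)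
  have e1 : ∑ x ∈ S', u x = ∑ x ∈ S' \ S, u x + ∑ x ∈ S, u x := by
    rw [Finset.sum_sdiff hSS]
  have e2 : ∑ x ∈ T, v x = ∑ x ∈ T \ T', v x + ∑ x ∈ T', v x := by
    rw [Finset.sum_sdiff hTT]
  have a1 : ∑ x ∈ S' \ S, u x ≤ 0 := Finset.sum_nonpos fun x _ => (hu x).le
  have a2 : 0 ≤ ∑ x ∈ T \ T', v x := Finset.sum_nonneg fun x _ => (hv x).le
  have b1 : ∑ x ∈ S' \ S, u x = 0 := by linarith
  have b2 : ∑ x ∈ T \ T', v x = 0 := by linarith
  constructor
  · by_contra hne
    have : (S' \ S).Nonempty := by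
      rw [Finset.sdiff_nonempty]
      intro h; exact hne (Finset.Subset.antisymm hSS h)
    have := Finset.sum_neg (fun x (_ : x ∈ S' \ S) => hu x) this
    linarith
  · by_contra hne
    have : (T \ T').Nonempty := by
      rw [Finset.sdiff_nonempty]
      intro h; exact hne (Finset.Subset.antisymm h hTT)
    have := Finset.sum_pos (fun x (_ : x ∈ T \ T') => hv x) this
    linarith

theorem sum_fact_le (u : X → ℚ) (v : Y → ℚ) (hu : ∀ x, u x < 0) (hv : ∀ y, 0 < v y) (r : ℕ)
    (F : Finset (Finset X × Finset Y))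
    (hF : ∀ B ∈ F, #B.1 + #B.2 = r ∧ ∑ x ∈ B.1, u x + ∑ y ∈ B.2, v y = 0) :
    ∑ B ∈ F, ((#B.1)! * (Fintype.card X - #B.1)!) * ((#B.2)! * (Fintype.card Y - #B.2)!) ≤
      (Fintype.card X)! * (Fintype.card Y)! := by
  have key : ∀ B ∈ F, ((#B.1)! * (Fintype.card X - #B.1)!) *
      ((#B.2)! * (Fintype.card Y - #B.2)!) = #(prefixed B.1 ×ˢ prefixed B.2) := by
    intro B _
    rw [Finset.card_product, card_prefixed, card_prefixed]
  rw [Finset.sum_congr rfl key, ← Finset.card_biUnion]
  · refine (Finset.card_le_univ _).trans ?_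
    rw [Fintype.card_prod, Fintype.card_numbering, Fintype.card_numbering]
  · intro B hB B' hB' hne
    change Disjoint _ _
    rw [Finset.disjoint_left]
    rintro ⟨f, g⟩ h h'
    rw [Finset.mem_product, mem_prefixed, mem_prefixed] at h h'
    obtain ⟨hS, hT⟩ := h
    obtain ⟨hS', hT'⟩ := h'
    obtain ⟨h1, h2⟩ := hF B hB
    obtain ⟨h1', h2'⟩ := hF B' hB'
    apply hne
    rcases le_total (#B.1) (#B'.1) with hle | hle
    · have := eq_of_prefix hu hv h1 h1' h2 h2' f g hS hS' hT hT' hle
      exact Prod.ext this.1 this.2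
    · have := eq_of_prefix hu hv h1' h1 h2' h2 f g hS' hS hT' hT hle
      exact Prod.ext this.1.symm this.2.symm

theorem card_le_of_choose (u : X → ℚ) (v : Y → ℚ) (hu : ∀ x, u x < 0) (hv : ∀ y, 0 < v y) (r : ℕ)
    (F : Finset (Finset X × Finset Y))
    (hF : ∀ B ∈ F, #B.1 + #B.2 = r ∧ ∑ x ∈ B.1, u x + ∑ y ∈ B.2, v y = 0)
    (M : ℕ) (hM : ∀ B ∈ F, (Fintype.card X).choose (#B.1) * (Fintype.card Y).choose (#B.2) ≤ M) :
    #F ≤ M := by
  have h := sum_fact_le u v hu hv r F hF
  have h3 : #F * ((Fintype.card X)! * (Fintype.card Y)!) ≤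
      M * ((Fintype.card X)! * (Fintype.card Y)!) := by
    calc #F * ((Fintype.card X)! * (Fintype.card Y)!)
        = ∑ B ∈ F, ((Fintype.card X)! * (Fintype.card Y)!) := by
          rw [Finset.sum_const, smul_eq_mul]
      _ ≤ ∑ B ∈ F, M * (((#B.1)! * (Fintype.card X - #B.1)!) *
            ((#B.2)! * (Fintype.card Y - #B.2)!)) := by
          apply Finset.sum_le_sum
          intro B hB
          have c1 := Nat.choose_mul_factorial_mul_factorial (Finset.card_le_univ B.1)
          have c2 := Nat.choose_mul_factorial_mul_factorial (Finset.card_le_univ B.2)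
          rw [← c1, ← c2]
          calc _ = ((Fintype.card X).choose (#B.1) * (Fintype.card Y).choose (#B.2)) *
                (((#B.1)! * (Fintype.card X - #B.1)!) *
            ((#B.2)! * (Fintype.card Y - #B.2)!)) := by ring
            _ ≤ _ := Nat.mul_le_mul_right _ (hM B hB)
      _ = M * ∑ B ∈ F, (((#B.1)! * (Fintype.card X - #B.1)!) *
            ((#B.2)! * (Fintype.card Y - #B.2)!)) := by rw [Finset.mul_sum]
      _ ≤ M * ((Fintype.card X)! * (Fintype.card Y)!) := Nat.mul_le_mul_left _ h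
  exact Nat.le_of_mul_le_mul_right h3 (Nat.mul_pos (Nat.factorial_pos _) (Nat.factorial_pos _))

end lym

/-! ### The inequality between binomial coefficients -/

lemma lemA {N s : ℕ} (hs : 1 ≤ s) (hN : s ≤ N) (y : ℕ) :
    y * N.choose s ≤ (N / s) * (N + y - N / s).choose s := by
  set m := N / s with hm
  have hms : s * m ≤ N := Nat.mul_div_le N s
  have hms' : N + 1 ≤ s * m + s := by
    have := Nat.lt_mul_div_succ N (show 0 < s by omega)
    rw [← hm] at this
    nlinarith
  have hmN : m ≤ N := Nat.div_le_self N s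
  have hm1 : 1 ≤ m := (Nat.one_le_div_iff (by omega)).2 hN
  obtain ⟨s', rfl⟩ : ∃ s', s = s' + 1 := ⟨s - 1, by omega⟩
  rcases le_total m y with hy | hy
  · induction y, hy using Nat.le_induction with
    | base => simp
    | succ y hy ih =>
      obtain ⟨M, hM⟩ : ∃ M, N + y = M + m := ⟨N + y - m, by omega⟩
      have e1 : N + y - m = M := by omega
      have e2 : N + (y + 1) - m = M + 1 := by omega
      rw [e1] at ih
      rw [e2]
      have hpos : 0 < M + 1 - (s' + 1) := by omega
      have hc := Nat.choose_mul_succ_eq M (s' + 1)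
      obtain ⟨D, hD⟩ : ∃ D, M + 1 = D + (s' + 1) := ⟨M + 1 - (s' + 1), by omega⟩
      have e3 : M + 1 - (s' + 1) = D := by omega
      rw [e3] at hc hpos
      refine Nat.le_of_mul_le_mul_right ?_ hpos
      have h1 : (y + 1) * D ≤ y * (M + 1) := by
        -- D ≤ s y - ...
        have : D ≤ y * (s' + 1) := by
          have : s' * m ≤ s' * y := Nat.mul_le_mul_left _ hy
          nlinarith
        rw [hD]; nlinarith
      calc (y + 1) * N.choose (s' + 1) * D = ((y + 1) * D) * N.choose (s' + 1) := by ring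
        _ ≤ (y * (M + 1)) * N.choose (s' + 1) := Nat.mul_le_mul_right _ h1
        _ = (M + 1) * (y * N.choose (s' + 1)) := by ring
        _ ≤ (M + 1) * (m * M.choose (s' + 1)) := Nat.mul_le_mul_left _ ih
        _ = m * (M.choose (s' + 1) * (M + 1)) := by ring
        _ = m * ((M + 1).choose (s' + 1) * D) := by rw [hc]
        _ = _ := by ring
  · obtain ⟨j, hj⟩ : ∃ j, m = y + j := ⟨m - y, by omega⟩
    clear hy
    induction j generalizing y with
    | zero => 
      have : y = m := by omega
      subst this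
      simp
    | succ j ih =>
      have ih' := ih (y + 1) (by omega)
      obtain ⟨M, hM⟩ : ∃ M, N + y = M + m := ⟨N + y - m, by omega⟩
      have e1 : N + y - m = M := by omega
      have e2 : N + (y + 1) - m = M + 1 := by omega
      rw [e2] at ih'
      rw [e1]
      have hc := Nat.choose_mul_succ_eq M (s' + 1)
      have hle : y * (s' + 1) + (s' + 1) ≤ M + 1 := by
        have : y + 1 ≤ m := by omega
        have : (y + 1) * s' ≤ m * s' := Nat.mul_le_mul_right _ this
        nlinarith
      obtain ⟨D, hD⟩ : ∃ D, M + 1 = D + (s' + 1) := ⟨M + 1 - (s' + 1), by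
        have : 0 ≤ y * (s' + 1) := Nat.zero_le _
        omega⟩
      have e3 : M + 1 - (s' + 1) = D := by omega
      rw [e3] at hc
      refine Nat.le_of_mul_le_mul_right ?_ (show 0 < M + 1 by omega)
      have h1 : y * (M + 1) ≤ (y + 1) * D := by
        rw [hD] at hle ⊢; nlinarith
      calc y * N.choose (s' + 1) * (M + 1) = (y * (M + 1)) * N.choose (s' + 1) := by ring
        _ ≤ ((y + 1) * D) * N.choose (s' + 1) := Nat.mul_le_mul_right _ h1
        _ = D * ((y + 1) * N.choose (s' + 1)) := by ring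
        _ ≤ D * (m * (M + 1).choose (s' + 1)) := Nat.mul_le_mul_left _ ih'
        _ = m * ((M + 1).choose (s' + 1) * D) := by ring
        _ = m * (M.choose (s' + 1) * (M + 1)) := by rw [hc]
        _ = _ := by ring

lemma lemB {N s : ℕ} (hs : 1 ≤ s) (hN : s ≤ N) (q k : ℕ) :
    q.choose (k + 1) * N.choose s ≤ (N / s) * (q + N - N / s).choose (k + s) := by
  induction q generalizing k with
  | zero => simp
  | succ q ih =>
    have hmN : N / s ≤ N := Nat.div_le_self N s
    cases k with
    | zero =>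
      have := lemA hs hN (q + 1)
      simpa [add_comm] using this
    | succ k =>
      have h1 := ih k
      have h2 := ih (k + 1)
      have e : q + 1 + N - N / s = (q + N - N / s) + 1 := by omega
      have e' : k + 1 + s = (k + s) + 1 := by omega
      rw [e, e', Nat.choose_succ_succ, Nat.choose_succ_succ (q + N - N / s)]
      rw [e'] at h2
      nlinarith

/-- `m ↦ m * choose (n - m) (r - 1)` is largest at `m = n / r`. -/
lemma lemC {n r : ℕ} (hr : 2 ≤ r) (hrn : r ≤ n) (m : ℕ) (hm : m ≤ n) :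
    m * (n - m).choose (r - 1) ≤ (n / r) * (n - n / r).choose (r - 1) := by
  set m₀ := n / r with hm₀
  have hms : r * m₀ ≤ n := Nat.mul_div_le n r
  have hms' : n + 1 ≤ r * m₀ + r := by
    have := Nat.lt_mul_div_succ n (show 0 < r by omega)
    rw [← hm₀] at this
    nlinarith
  obtain ⟨s, rfl⟩ : ∃ s, r = s + 1 := ⟨r - 1, by omega⟩
  simp only [Nat.add_sub_cancel]
  rcases le_total m₀ m with h | h
  · induction m, h using Nat.le_induction with
    | base => exact le_rfl
    | succ m h ih =>
      refine le_trans ?_ (ih (by omega))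
      obtain ⟨M, hM⟩ : ∃ M, n = M + 1 + m := ⟨n - m - 1, by omega⟩
      have e1 : n - m = M + 1 := by omega
      have e2 : n - (m + 1) = M := by omega
      rw [e1, e2]
      have hc := Nat.choose_mul_succ_eq M s
      -- (m+1) C(M,s) ≤ m C(M+1,s)
      rcases lt_or_ge M s with hMs | hMs
      · rw [Nat.choose_eq_zero_of_lt hMs]; simp
      · obtain ⟨D, hD⟩ : ∃ D, M + 1 = D + s := ⟨M + 1 - s, by omega⟩
        have e3 : M + 1 - s = D := by omega
        rw [e3] at hc
        have hD0 : 0 < D := by omega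
        refine Nat.le_of_mul_le_mul_right ?_ hD0
        have hmm : s * m₀ ≤ s * m := Nat.mul_le_mul_left _ h
        have h1 : (m + 1) * D ≤ m * (M + 1) := by
          rw [hD]; nlinarith
        calc (m + 1) * M.choose s * D = ((m + 1) * D) * M.choose s := by ring
          _ ≤ (m * (M + 1)) * M.choose s := Nat.mul_le_mul_right _ h1
          _ = m * (M.choose s * (M + 1)) := by ring
          _ = m * ((M + 1).choose s * D) := by rw [hc]
          _ = _ := by ring
  · obtain ⟨j, hj⟩ : ∃ j, m₀ = m + j := ⟨m₀ - m, by omega⟩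
    clear h
    induction j generalizing m with
    | zero =>
      have : m = m₀ := by omega
      rw [this]
    | succ j ih =>
      have hm1 : m + 1 ≤ n := by
        have : m₀ ≤ n := Nat.div_le_self n _
        omega
      refine le_trans ?_ (ih (m + 1) hm1 (by omega))
      obtain ⟨M, hM⟩ : ∃ M, n = M + 1 + m := ⟨n - m - 1, by omega⟩
      have e1 : n - m = M + 1 := by omega
      have e2 : n - (m + 1) = M := by omega
      rw [e1, e2]
      have hc := Nat.choose_mul_succ_eq M s
      have hle : (m + 1) * (s + 1) ≤ n := by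
        have : m + 1 ≤ m₀ := by omega
        calc (m + 1) * (s + 1) ≤ m₀ * (s + 1) := Nat.mul_le_mul_right _ this
          _ ≤ n := by rw [mul_comm]; exact hms
      obtain ⟨D, hD⟩ : ∃ D, M + 1 = D + s := ⟨M + 1 - s, by
        have : s ≤ M + 1 := by nlinarith
        omega⟩
      have e3 : M + 1 - s = D := by omega
      rw [e3] at hc
      refine Nat.le_of_mul_le_mul_right ?_ (show 0 < M + 1 by omega)
      have h1 : m * (M + 1) ≤ (m + 1) * D := by
        nlinarith
      calc m * (M + 1).choose s * (M + 1) = (m * (M + 1)) * (M + 1).choose s := by ring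
        _ ≤ ((m + 1) * D) * (M + 1).choose s := Nat.mul_le_mul_right _ h1
        _ = (m + 1) * ((M + 1).choose s * D) := by ring
        _ = (m + 1) * (M.choose s * (M + 1)) := by rw [hc]
        _ = _ := by ring

lemma choose_bound {q p n r a b : ℕ} (hr : 1 < r) (hrn : r < n) (hpq : q + p = n)
    (ha : 1 ≤ a) (hb : 1 ≤ b) (hab : a + b = r) :
    q.choose a * p.choose b ≤ (n - n / r).choose (r - 1) * (n / r) := by
  rcases lt_or_ge p b with h | h
  · rw [Nat.choose_eq_zero_of_lt h]; simp
  · obtain ⟨k, rfl⟩ : ∃ k, a = k + 1 := ⟨a - 1, by omega⟩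
    have h1 := lemB hb h q k
    have h2 := lemC (show 2 ≤ r by omega) (show r ≤ n by omega) (p / b)
      ((Nat.div_le_self p b).trans (by omega))
    have e : q + p - p / b = n - p / b := by omega
    have e' : k + b = r - 1 := by omega
    rw [e, e'] at h1
    rw [mul_comm ((n - n / r).choose (r - 1))]
    exact h1.trans h2

/-! ### The upper bound -/

lemma exists_functional (A : Finset ℝ) (hA : ∀ a ∈ A, Irrational a) :
    ∃ ψ : ℝ →ₗ[ℚ] ℚ, (∀ q : ℚ, ψ (q : ℝ) = 0) ∧ ∀ a ∈ A, ψ a ≠ 0 := by
  let W : Submodule ℚ ℝ := Submodule.span ℚ {(1 : ℝ)}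
  obtain ⟨f, hf⟩ := Module.exists_dual_forall_apply_ne_zero (K := ℚ) (M := ℝ ⧸ W) (ι := A)
    (fun a => W.mkQ (a : ℝ)) (by
    intro a h
    rw [Submodule.mkQ_apply, Submodule.Quotient.mk_eq_zero, Submodule.mem_span_singleton] at h
    obtain ⟨q, hq⟩ := h
    apply hA a a.2
    exact ⟨q, by rw [← hq, Rat.smul_def, mul_one]⟩)
  refine ⟨f.comp W.mkQ, ?_, ?_⟩
  · intro q
    have : W.mkQ (q : ℝ) = 0 := by
      rw [Submodule.mkQ_apply, Submodule.Quotient.mk_eq_zero, Submodule.mem_span_singleton]
      exact ⟨q, by rw [Rat.smul_def, mul_one]⟩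
    rw [LinearMap.comp_apply, this, map_zero]
  · intro a ha
    exact hf ⟨a, ha⟩

/-- The number of `r`-element subsets of `A` with rational sum. -/
noncomputable def ratCount (A : Finset ℝ) (r : ℕ) : ℕ :=
  Set.ncard {B : Finset ℝ | B ⊆ A ∧ B.card = r ∧ ∃ q : ℚ, ∑ b ∈ B, b = (q : ℝ)}

lemma count_le (A : Finset ℝ) {n r : ℕ} (hr : 1 < r) (hrn : r < n)
    (hA : ∀ a ∈ A, Irrational a) (hcard : #A = n) :
    ratCount A r ≤ (n - n / r).choose (r - 1) * (n / r) := by
  classical
  obtain ⟨ψ, hψ, hne⟩ := exists_functional A hA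
  set Q := A.filter (fun a => ψ a < 0) with hQ
  set P := A.filter (fun a => 0 < ψ a) with hP
  have hPQ : ∀ x ∈ A, x ∈ P ↔ ¬ x ∈ Q := by
    intro x hx
    have := hne x hx
    simp only [hP, hQ, Finset.mem_filter, hx, true_and, not_lt]
    constructor
    · intro h; exact h.le
    · intro h; exact lt_of_le_of_ne h (Ne.symm this)
  have hfil : ∀ B ⊆ A, B.filter (· ∈ P) = B.filter (fun x => ¬ x ∈ Q) := by
    intro B hB
    apply Finset.filter_congr
    intro x hx
    exact hPQ x (hB hx)
  have hcB : ∀ B ⊆ A, #(B.filter (· ∈ Q)) + #(B.filter (· ∈ P)) = #B := by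
    intro B hB
    rw [hfil B hB]
    exact Finset.card_filter_add_card_filter_not _
  have hsB : ∀ B ⊆ A, ∑ x ∈ B.filter (· ∈ Q), ψ x + ∑ x ∈ B.filter (· ∈ P), ψ x
      = ∑ x ∈ B, ψ x := by
    intro B hB
    rw [hfil B hB]
    exact Finset.sum_filter_add_sum_filter_not _ _ _
  have hQA : Q ⊆ A := Finset.filter_subset _ _
  have hPA : P ⊆ A := Finset.filter_subset _ _
  have hQPn : #Q + #P = n := by
    have h := hcB A (Finset.Subset.refl _)
    rw [Finset.filter_mem_eq_inter, Finset.filter_mem_eq_inter,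
      Finset.inter_eq_right.2 hQA, Finset.inter_eq_right.2 hPA] at h
    rw [h, hcard]
  let F₀ : Finset (Finset ℝ) := (A.powersetCard r).filter (fun B => ∑ b ∈ B, ψ b = 0)
  have hF₀ : ∀ B ∈ F₀, B ⊆ A ∧ #B = r ∧ ∑ b ∈ B, ψ b = 0 := by
    intro B hB
    have := Finset.mem_filter.1 hB
    have h2 := Finset.mem_powersetCard.1 this.1
    exact ⟨h2.1, h2.2, this.2⟩
  let pr : Finset ℝ → Finset {x // x ∈ Q} × Finset {x // x ∈ P} :=
    fun B => (B.subtype (· ∈ Q), B.subtype (· ∈ P))
  have h1 : ratCount A r ≤ #F₀ := by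
    rw [← Set.ncard_coe_finset F₀]
    apply Set.ncard_le_ncard _ (Finset.finite_toSet _)
    rintro B ⟨hB, hBr, q, hq⟩
    rw [Finset.mem_coe, Finset.mem_filter, Finset.mem_powersetCard]
    refine ⟨⟨hB, hBr⟩, ?_⟩
    rw [← map_sum, hq, hψ]
  have h2 : #(F₀.image pr) = #F₀ := by
    apply Finset.card_image_of_injOn
    intro B hB B' hB' hEq
    have hB := hF₀ B hB
    have hB' := hF₀ B' hB'
    have e1 : B.subtype (· ∈ Q) = B'.subtype (· ∈ Q) := congrArg Prod.fst hEq
    have e2 : B.subtype (· ∈ P) = B'.subtype (· ∈ P) := congrArg Prod.snd hEq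
    have key : ∀ x ∈ A, x ∈ B ↔ x ∈ B' := by
      intro x hx
      by_cases hxQ : x ∈ Q
      · have := Finset.ext_iff.1 e1 ⟨x, hxQ⟩
        simpa using this
      · have hxP := (hPQ x hx).2 hxQ
        have := Finset.ext_iff.1 e2 ⟨x, hxP⟩
        simpa using this
    ext x
    constructor
    · intro h; exact (key x (hB.1 h)).1 h
    · intro h; exact (key x (hB'.1 h)).2 h
  have hneg : ∀ x : {x // x ∈ Q}, ψ x < 0 := fun x => (Finset.mem_filter.1 x.2).2
  have hpos : ∀ x : {x // x ∈ P}, 0 < ψ x := fun x => (Finset.mem_filter.1 x.2).2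
  have h3 := card_le_of_choose (fun x : {x // x ∈ Q} => ψ x) (fun x : {x // x ∈ P} => ψ x)
    hneg hpos r (F₀.image pr) (by
      intro C hC
      obtain ⟨B, hB, rfl⟩ := Finset.mem_image.1 hC
      have hB := hF₀ B hB
      refine ⟨?_, ?_⟩
      · change #(B.subtype (· ∈ Q)) + #(B.subtype (· ∈ P)) = r
        rw [Finset.card_subtype, Finset.card_subtype, hcB B hB.1, hB.2.1]
      · change ∑ x ∈ B.subtype (· ∈ Q), ψ x + ∑ x ∈ B.subtype (· ∈ P), ψ x = 0
        rw [Finset.sum_subtype_eq_sum_filter (f := fun x => ψ x),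
          Finset.sum_subtype_eq_sum_filter (f := fun x => ψ x), hsB B hB.1, hB.2.2])
    ((n - n / r).choose (r - 1) * (n / r)) (by
      intro C hC
      obtain ⟨B, hB, rfl⟩ := Finset.mem_image.1 hC
      have hB := hF₀ B hB
      change (Fintype.card {x // x ∈ Q}).choose #(B.subtype (· ∈ Q)) *
        (Fintype.card {x // x ∈ P}).choose #(B.subtype (· ∈ P)) ≤ _
      rw [Finset.card_subtype, Finset.card_subtype, Fintype.card_coe, Fintype.card_coe]
      have hc := hcB B hB.1
      have hs := hsB B hB.1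
      rw [hB.2.2] at hs
      rw [hB.2.1] at hc
      have hposs : ∀ x ∈ B.filter (· ∈ P), 0 < ψ x := fun x hx =>
        hpos ⟨x, (Finset.mem_filter.1 hx).2⟩
      have hnegs : ∀ x ∈ B.filter (· ∈ Q), ψ x < 0 := fun x hx =>
        hneg ⟨x, (Finset.mem_filter.1 hx).2⟩
      have ha : 1 ≤ #(B.filter (· ∈ Q)) := by
        by_contra hcon
        have h0 : B.filter (· ∈ Q) = ∅ := Finset.card_eq_zero.1 (by omega)
        have hnon : (B.filter (· ∈ P)).Nonempty := Finset.card_pos.1 (by
          rw [h0, Finset.card_empty] at hc; omega)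
        have := Finset.sum_pos hposs hnon
        rw [h0, Finset.sum_empty] at hs
        linarith
      have hb : 1 ≤ #(B.filter (· ∈ P)) := by
        by_contra hcon
        have h0 : B.filter (· ∈ P) = ∅ := Finset.card_eq_zero.1 (by omega)
        have hnon : (B.filter (· ∈ Q)).Nonempty := Finset.card_pos.1 (by
          rw [h0, Finset.card_empty] at hc; omega)
        have := Finset.sum_neg hnegs hnon
        rw [h0, Finset.sum_empty] at hs
        linarith
      exact choose_bound hr hrn hQPn ha hb hc)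
  omega

/-! ### The construction -/

lemma irr_aux (i j : ℚ) (hj : j ≠ 0) : Irrational ((i : ℝ) + j * √2) := by
  have h := (irrational_sqrt_two.ratCast_mul hj).ratCast_add i
  exact h

lemma count_ge {n r : ℕ} (hr : 1 < r) :
    ∃ A : Finset ℝ, (∀ a ∈ A, Irrational a) ∧ #A = n ∧
      (n - n / r).choose (r - 1) * (n / r) ≤ ratCount A r := by
  classical
  set m := n / r with hm
  have hmn : m ≤ n := Nat.div_le_self n r
  let f1 : ℕ → ℝ := fun i => (i : ℝ) - ((r : ℝ) - 1) * √2
  let f2 : ℕ → ℝ := fun i => (i : ℝ) + √2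
  let A1 : Finset ℝ := (range m).image f1
  let A2 : Finset ℝ := (range (n - m)).image f2
  have hf1 : Function.Injective f1 := by
    intro i j h
    have : (i : ℝ) = j := by simpa [f1] using h
    exact_mod_cast this
  have hf2 : Function.Injective f2 := by
    intro i j h
    have : (i : ℝ) = j := by simpa [f2] using h
    exact_mod_cast this
  have hA1 : #A1 = m := by
    rw [Finset.card_image_of_injective _ hf1, Finset.card_range]
  have hA2 : #A2 = n - m := by
    rw [Finset.card_image_of_injective _ hf2, Finset.card_range]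
  have hr0 : (r : ℚ) ≠ 0 := by positivity
  have hdis : Disjoint A1 A2 := by
    rw [Finset.disjoint_left]
    intro x hx1 hx2
    obtain ⟨i, _, rfl⟩ := Finset.mem_image.1 hx1
    obtain ⟨j, _, hj⟩ := Finset.mem_image.1 hx2
    have h := irr_aux ((j : ℚ) - i) (r : ℚ) hr0
    apply h
    refine ⟨0, ?_⟩
    simp only [f1, f2] at hj
    push_cast
    linarith
  have hirr1 : ∀ a ∈ A1, Irrational a := by
    intro a ha
    obtain ⟨i, _, rfl⟩ := Finset.mem_image.1 ha
    have hne : (-((r : ℚ) - 1)) ≠ 0 := by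
      have : (1 : ℚ) < r := by exact_mod_cast hr
      intro h; linarith
    have h := irr_aux (i : ℚ) (-((r : ℚ) - 1)) hne
    convert h using 1
    simp only [f1]; push_cast; ring
  have hirr2 : ∀ a ∈ A2, Irrational a := by
    intro a ha
    obtain ⟨i, _, rfl⟩ := Finset.mem_image.1 ha
    have h := irr_aux (i : ℚ) 1 one_ne_zero
    convert h using 1
    simp only [f2]; push_cast; ring
  refine ⟨A1 ∪ A2, ?_, ?_, ?_⟩
  · intro a ha
    rcases Finset.mem_union.1 ha with h | h
    · exact hirr1 a h
    · exact hirr2 a h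
  · rw [Finset.card_union_of_disjoint hdis, hA1, hA2]; omega
  · let G : Finset (ℝ × Finset ℝ) := A1 ×ˢ A2.powersetCard (r - 1)
    have hG : #G = (n - m).choose (r - 1) * m := by
      rw [Finset.card_product, Finset.card_powersetCard, hA1, hA2, mul_comm]
    have hinj : Set.InjOn (fun p : ℝ × Finset ℝ => insert p.1 p.2) G := by
      rintro ⟨a, S⟩ h ⟨a', S'⟩ h' hEq
      rw [Finset.mem_coe, Finset.mem_product, Finset.mem_powersetCard] at h h'
      have hEq : insert a S = insert a' S' := hEq
      have hS : ∀ x ∈ S, x ∉ A1 := fun x hx h1 => (Finset.disjoint_left.1 hdis h1) (h.2.1 hx)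
      have hS' : ∀ x ∈ S', x ∉ A1 := fun x hx h1 => (Finset.disjoint_left.1 hdis h1) (h'.2.1 hx)
      have haa : a = a' := by
        have : a ∈ insert a' S' := by rw [← hEq]; exact Finset.mem_insert_self _ _
        rcases Finset.mem_insert.1 this with h1 | h1
        · exact h1
        · exact absurd h.1 (hS' a h1)
      subst haa
      have haS : a ∉ S := fun h1 => hS a h1 h.1
      have haS' : a ∉ S' := fun h1 => hS' a h1 h.1
      have : S = S' := by
        rw [← Finset.erase_insert haS, hEq, Finset.erase_insert haS']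
      rw [this]
    rw [← hG, ← Finset.card_image_of_injOn hinj, ← Set.ncard_coe_finset]
    apply Set.ncard_le_ncard
    · intro B hB
      rw [Finset.mem_coe, Finset.mem_image] at hB
      obtain ⟨⟨a, S⟩, h, rfl⟩ := hB
      rw [Finset.mem_product, Finset.mem_powersetCard] at h
      obtain ⟨ha, hS, hSc⟩ := h
      simp only at ha hS hSc
      have haS : a ∉ S := fun h1 => (Finset.disjoint_left.1 hdis ha) (hS h1)
      refine ⟨?_, ?_, ?_⟩
      · intro x hx
        rcases Finset.mem_insert.1 hx with rfl | hx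
        · exact Finset.mem_union_left _ ha
        · exact Finset.mem_union_right _ (hS hx)
      · rw [Finset.card_insert_of_notMem haS, hSc]; omega
      · obtain ⟨i, _, rfl⟩ := Finset.mem_image.1 ha
        have h1 : ∑ s ∈ S, (s - √2) ∈ (Rat.castHom ℝ).fieldRange := by
          apply sum_mem
          intro s hs
          obtain ⟨j, _, rfl⟩ := Finset.mem_image.1 (hS hs)
          exact ⟨(j : ℚ), by simp [f2]⟩
        obtain ⟨q, hq⟩ := h1
        refine ⟨(i : ℚ) + q, ?_⟩
        rw [Finset.sum_insert haS]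
        rw [Finset.sum_sub_distrib, Finset.sum_const, hSc, nsmul_eq_mul,
          Nat.cast_sub hr.le] at hq
        simp only [f1]
        have hq' : (q : ℝ) = ∑ x ∈ S, x - ((r : ℝ) - (1 : ℕ)) * √2 := hq
        push_cast at hq' ⊢
        rw [hq']
        ring
    · apply Set.Finite.subset (Finset.finite_toSet (A1 ∪ A2).powerset)
      rintro B ⟨hB, -⟩
      rw [Finset.mem_coe, Finset.mem_powerset]
      exact hB

/-- **Main theorem.**  For all `1 < r < n`, the maximum over all sets `A` of exactly `n`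
irrational real numbers of the number of `r`-element subsets of `A` with rational sum is
`choose (n - ⌊n/r⌋) (r - 1) * ⌊n/r⌋`. -/
theorem result (n r : ℕ) (hr : 1 < r) (hrn : r < n) :
    IsGreatest {c : ℕ | ∃ A : Finset ℝ, (∀ a ∈ A, Irrational a) ∧ A.card = n ∧
      c = Set.ncard {B : Finset ℝ | B ⊆ A ∧ B.card = r ∧ ∃ q : ℚ, ∑ b ∈ B, b = (q : ℝ)}}
    ((n - n / r).choose (r - 1) * (n / r)) := by
  constructor
  · obtain ⟨A, hA, hcard, hge⟩ := count_ge (n := n) hr
    exact ⟨A, hA, hcard, le_antisymm hge (count_le A hr hrn hA hcard)⟩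
  · rintro c ⟨A, hA, hcard, rfl⟩
    exact count_le A hr hrn hA hcard

end Pool.Agent.Results.MP_604c02_co.RationalSums
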